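import Pool.Agent.Q25.PLP.Stm

/-!
# Project PLP: assembly
-/

set_option autoImplicit false

open Finset Pool.Agent.Helper123.PLP Pool.Agent.Q25.PLP

namespace Pool.Agent.Q214.PLPFIN

theorem t_FIN (hPL : S_PL) (hH32 : S_H32) (hLIM : S_LIM) (hLOC : S_LOC) (hGA : S_GA) : S_FIN := by
  intro P _ _ G
  have hK : IsClosed {c : Finset P → P → ℝ | ∀ h ∈ G.H, 3 / 2 ≤ PP h (inn G.L h) c} := by
    have e : {c : Finset P → P → ℝ | ∀ h ∈ G.H, 3 / 2 ≤ PP h (inn G.L h) c} =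
        ⋂ h ∈ G.H, {c : Finset P → P → ℝ | 3 / 2 ≤ PP h (inn G.L h) c} := by
      ext c
      simp
    rw [e]
    refine isClosed_biInter fun h _ => isClosed_le continuous_const ?_
    unfold PP
    fun_prop
  obtain ⟨c, hcK, hch, hlow⟩ := hLIM P G.L (fun l hl => card_pos.1 (lt_of_lt_of_le (by norm_num) (G.two_le l hl))) _ hK
    (fun u hu h hh => hH32 P h (inn G.L h) (hPL P G h hh) u hu)
  refine hGA P G c hch hlow fun h hh => ?_
  refine hLOC P h (inn G.L h) (hPL P G h hh) c ⟨hch.nn, hch.off, fun l hl => hch.one l (mem_inn.1 hl).1⟩ _ ?_ (hcK h hh)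
  intro l hl x hx hcx y hy
  exact div_le_div_of_nonneg_right (hlow l (mem_inn.1 hl).1 x hx hcx y hy) (Nat.cast_nonneg _)

end Pool.Agent.Q214.PLPFIN
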